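import Pool.Agent.TDV.Stmts

/-!
Squad TDV, module UNI: `QU` is partial recursive (helper81).
-/

set_option autoImplicit false

namespace Pool.Agent.TDV.H81

open Pool.Agent.TDV

theorem uni (hvlm : VlmStmt) : UniStmt := by
  obtain ⟨-, -, -, -, -, -, hvl, -, hcolp, -⟩ := hvlm
  have hlen : Computable fun q : List Bool × List Bool => q.1.length :=
    Primrec.list_length.to_comp.comp Computable.fst
  have h1 : Computable fun q : List Bool × List Bool =>
      Denumerable.ofNat Nat.Partrec.Code (vl q.1.length) :=
    (Computable.ofNat Nat.Partrec.Code).comp (hvl.to_comp.comp hlen)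
  have h2 : Computable fun q : List Bool × List Bool => Encodable.encode (colp q.1, q.2) :=
    Computable.encode.comp ((hcolp.to_comp.comp Computable.fst).pair Computable.snd)
  have h3 : Partrec fun q : List Bool × List Bool =>
      (Denumerable.ofNat Nat.Partrec.Code (vl q.1.length)).eval
        (Encodable.encode (colp q.1, q.2)) :=
    Nat.Partrec.Code.eval_part.comp h1 h2
  have h4 : Computable fun q : List Bool × List Bool => decide (q.1.length = 0) := by
    have h5 : PrimrecPred fun q : List Bool × List Bool => q.1.length = 0 :=
      Primrec.eq.comp (Primrec.list_length.comp Primrec.fst) (Primrec.const 0)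
    exact h5.decide.to_comp
  have h6 := Partrec.cond h4 (Partrec.none (α := List Bool × List Bool) (σ := ℕ)) h3
  refine h6.of_eq fun q => ?_
  unfold QU
  by_cases h : q.1.length = 0
  · simp only [h, decide_true, cond_true, if_true]
  · simp only [h, decide_false, cond_false, if_false]

end Pool.Agent.TDV.H81
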